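import Pool.Agent.H.MP_fd4af6_gt.A

open Set Complex Filter Topology Pointwise ComplexConjugate

namespace Pool.Agent.Results.MP_26b77b_gt.Fails

/-- `K` is a plane convex body whose boundary curve is differentiable: at every boundary point
there is exactly one supporting line (exactly one outer unit normal). -/
def SmoothBody (K : Set ℂ) : Prop :=
  Convex ℝ K ∧ IsCompact K ∧ (interior K).Nonempty ∧
    ∀ x ∈ frontier K, ∃! ν : ℂ, ‖ν‖ = 1 ∧ ∀ z ∈ K, inner ℝ ν (z - x) ≤ 0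

/-- Perimeter of the triangle `x y z`. -/
noncomputable def per (x y z : ℂ) : ℝ := dist x y + dist y z + dist z x

/-- An admissible run of the iteration on the curve `C`: a nondegenerate inscribed initial
triangle, then `Z`, `Y`, `X` are replaced in turn by perimeter maximisers on `C`. -/
def Run (C : Set ℂ) (X Y Z : ℕ → ℂ) : Prop :=
  AffineIndependent ℝ ![X 0, Y 0, Z 0] ∧ ∀ n, X n ∈ C ∧ Y n ∈ C ∧ Z n ∈ C ∧
    (∀ p ∈ C, per (X n) (Y n) p ≤ per (X n) (Y n) (Z (n + 1))) ∧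
    (∀ p ∈ C, per (X n) p (Z (n + 1)) ≤ per (X n) (Y (n + 1)) (Z (n + 1))) ∧
    (∀ p ∈ C, per p (Y (n + 1)) (Z (n + 1)) ≤ per (X (n + 1)) (Y (n + 1)) (Z (n + 1)))

lemma amgm (x d : ℝ) (hd : 0 < d) : x ≤ (x ^ 2 + d ^ 2) / (2 * d) := by
  rw [le_div_iff₀ (by positivity)]; nlinarith [sq_nonneg (x - d)]

lemma tng (P F G N v : ℂ) (a b l : ℝ) (ha : 0 < a) (hb : 0 < b) (hl : 0 < l)
    (h1 : ‖P - F‖ = a) (h2 : ‖P - G‖ = b) (hN : N = l * ((P - F) / a + (P - G) / b))
    (hv : ‖v‖ ≤ ‖N‖) (h : l * (1 / a + 1 / b) ≤ 1) :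
    ‖P - N + v - F‖ + ‖P - N + v - G‖ ≤ a + b := by
  obtain ⟨u, hu⟩ : ∃ u, u = (P - F) / a := ⟨_, rfl⟩
  obtain ⟨w, hw⟩ : ∃ w, w = (P - G) / b := ⟨_, rfl⟩
  have a0 : (a : ℂ) ≠ 0 := by exact_mod_cast ha.ne'
  have b0 : (b : ℂ) ≠ 0 := by exact_mod_cast hb.ne'
  obtain ⟨k, hk⟩ : ∃ k, k = v - N := ⟨_, rfl⟩
  have e1 : P - N + v - F = a * u + k := by rw [hu, hk]; field_simp; ring
  have e2 : P - N + v - G = b * w + k := by rw [hw, hk]; field_simp; ring
  have e3 : v = k + N := by rw [hk]; ring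
  have nu : ‖u‖ ^ 2 = 1 := by
    rw [hu, norm_div, h1, norm_real, Real.norm_eq_abs, abs_of_pos ha, div_self ha.ne']; norm_num
  have nw : ‖w‖ ^ 2 = 1 := by
    rw [hw, norm_div, h2, norm_real, Real.norm_eq_abs, abs_of_pos hb, div_self hb.ne']; norm_num
  have hv2 := pow_le_pow_left₀ (norm_nonneg _) hv 2
  have i1 := amgm ‖a * u + k‖ a ha
  have i2 := amgm ‖b * w + k‖ b hb
  rw [← hu, ← hw] at hN
  rw [e3, hN] at hv2
  rw [e1, e2]
  simp only [Complex.sq_norm, normSq_apply, add_re, add_im, re_ofReal_mul, im_ofReal_mul]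
    at nu nw hv2 i1 i2
  obtain ⟨q, hq⟩ : ∃ q, q = k.re * k.re + k.im * k.im := ⟨_, rfl⟩
  have q0 : 0 ≤ q := by rw [hq]; nlinarith
  have j1 : ((a * u.re + k.re) * (a * u.re + k.re) + (a * u.im + k.im) * (a * u.im + k.im) +
      a ^ 2) / (2 * a) = a + (u.re * k.re + u.im * k.im) + q * (1 / a) / 2 := by
    rw [hq]; field_simp; linear_combination a ^ 2 * nu
  have j2 : ((b * w.re + k.re) * (b * w.re + k.re) + (b * w.im + k.im) * (b * w.im + k.im) +
      b ^ 2) / (2 * b) = b + (w.re * k.re + w.im * k.im) + q * (1 / b) / 2 := by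
    rw [hq]; field_simp; linear_combination b ^ 2 * nw
  obtain ⟨t, ht⟩ : ∃ t, t = (u.re * k.re + u.im * k.im) + (w.re * k.re + w.im * k.im) := ⟨_, rfl⟩
  have j3 : q + 2 * l * t ≤ 0 := by rw [hq, ht]; nlinarith
  have t0 : t ≤ 0 := by nlinarith
  have c0 : 0 < 1 / a + 1 / b := by positivity
  have j4 := mul_le_mul_of_nonneg_right j3 c0.le
  have j5 := mul_le_mul_of_nonpos_right h t0
  nlinarith

lemma far (P F G N v : ℂ) (a b S : ℝ) (h1 : ‖P - F‖ = a) (h2 : ‖P - G‖ = b)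
    (hv : ‖v‖ ≤ ‖N‖) (hN : ‖N‖ ≤ 1 / 2) (h : a + b + 2 ≤ S) :
    ‖P - N + v - F‖ + ‖P - N + v - G‖ ≤ S := by
  have e1 : P - N + v - F = (P - F) + (v - N) := by ring
  have e2 : P - N + v - G = (P - G) + (v - N) := by ring
  have := norm_add_le (P - F) (v - N)
  have := norm_add_le (P - G) (v - N)
  have := norm_sub_le v N
  rw [e1, e2]; linarith

noncomputable def P : Fin 6 → ℂ := ![⟨5 * √3 / 2, 3 / 2⟩, ⟨0, 4⟩, ⟨0, -4⟩, ⟨5 * √3 / 2, -3 / 2⟩,
  ⟨-3 * √3 / 2, 5 / 2⟩, ⟨-3 * √3 / 2, -5 / 2⟩]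

noncomputable def N : Fin 6 → ℂ := ![⟨3 * √3 / 14, 1 / 14⟩, ⟨-√3 / 14, 5 / 14⟩,
  ⟨-√3 / 14, -5 / 14⟩, ⟨3 * √3 / 14, -1 / 14⟩, ⟨-2 * √3 / 14, 4 / 14⟩, ⟨-2 * √3 / 14, -4 / 14⟩]

def D : Fin 6 → Fin 6 → ℕ := ![![0, 5, 7, 3, 7, 8], ![5, 0, 8, 7, 3, 7], ![7, 8, 0, 5, 7, 3],
  ![3, 7, 5, 0, 8, 7], ![7, 3, 7, 8, 0, 5], ![8, 7, 3, 7, 5, 0]]

def S : Fin 6 → ℕ := ![12, 15, 12, 15, 12, 15]

lemma nrm (z : ℂ) (d : ℝ) (hd : 0 ≤ d) (h : z.re * z.re + z.im * z.im = d ^ 2) : ‖z‖ = d := by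
  rw [← normSq_apply, ← Complex.sq_norm] at h
  exact (sq_eq_sq₀ (norm_nonneg _) hd).1 h

lemma s3 : √3 * √3 = 3 := Real.mul_self_sqrt (by norm_num)

lemma hD (i j : Fin 6) : ‖P i - P j‖ = D i j := by
  apply nrm _ _ (Nat.cast_nonneg _)
  have := s3
  fin_cases i <;> fin_cases j <;> simp [P, D] <;> nlinarith

noncomputable def r : ℝ := √(1 / 7)

lemma r0 : 0 < r := Real.sqrt_pos.2 (by norm_num)

lemma hN (i : Fin 6) : ‖N i‖ = r := by
  apply nrm _ _ r0.le
  rw [r, Real.sq_sqrt (by norm_num)]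
  have := s3
  fin_cases i <;> simp [N] <;> nlinarith

lemma r1 : r ≤ 1 / 2 := Real.sqrt_le_iff.2 (by norm_num)

lemma hT (k j : Fin 6) (h : j = k ∨ j = k + 3) : N j = ((3 / S k : ℝ) : ℂ) *
    ((P j - P (k + 1)) / (D j (k + 1) : ℝ) + (P j - P (k + 2)) / (D j (k + 2) : ℝ)) := by
  rcases h with h | h <;> rw [h] <;> fin_cases k <;> apply Complex.ext <;>
    simp [P, N, D, S] <;> ring

lemma ell (k j : Fin 6) (v : ℂ) (hv : ‖v‖ ≤ r) :
    ‖P j - N j + v - P (k + 1)‖ + ‖P j - N j + v - P (k + 2)‖ ≤ S k := by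
  rw [← hN j] at hv
  by_cases h : j = k ∨ j = k + 3
  · have d : 0 < D j (k + 1) ∧ 0 < D j (k + 2) ∧ D j (k + 1) + D j (k + 2) = S k ∧
        3 ≤ D j (k + 1) * D j (k + 2) := by clear hv; revert k j; decide
    have a0 : (0 : ℝ) < D j (k + 1) := by exact_mod_cast d.1
    have b0 : (0 : ℝ) < D j (k + 2) := by exact_mod_cast d.2.1
    have c : (D j (k + 1) : ℝ) + D j (k + 2) = S k := by exact_mod_cast d.2.2.1
    have c2 : (3 : ℝ) ≤ D j (k + 1) * D j (k + 2) := by exact_mod_cast d.2.2.2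
    rw [← c]
    refine tng _ _ _ _ _ _ _ (3 / S k) a0 b0 (by rw [← c]; positivity) (hD _ _) (hD _ _)
      (hT k j h) hv ?_
    rw [← c, div_add_div _ _ a0.ne' b0.ne', div_mul_div_comm, div_le_one (by positivity)]
    nlinarith
  · have d : D j (k + 1) + D j (k + 2) + 2 ≤ S k := by clear hv; revert k j; decide
    exact far _ _ _ _ _ _ _ _ (hD _ _) (hD _ _) hv ((hN j).le.trans r1) (by exact_mod_cast d)

noncomputable def K : Set ℂ := convexHull ℝ (range fun j => P j - N j) + Metric.closedBall 0 r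

lemma K_ell (k : Fin 6) (z : ℂ) (hz : z ∈ K) : ‖z - P (k + 1)‖ + ‖z - P (k + 2)‖ ≤ S k := by
  obtain ⟨q, hq, v, hv, rfl⟩ := hz
  have hc : ConvexOn ℝ univ fun q : ℂ => ‖q + v - P (k + 1)‖ + ‖q + v - P (k + 2)‖ := by
    have a := convexOn_univ_dist (P (k + 1) - v)
    have b := convexOn_univ_dist (P (k + 2) - v)
    have e : (fun q : ℂ => ‖q + v - P (k + 1)‖ + ‖q + v - P (k + 2)‖) =
        (fun q => dist q (P (k + 1) - v)) + fun q => dist q (P (k + 2) - v) := by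
      funext q
      simp only [Pi.add_apply, dist_eq_norm]
      congr 2 <;> ring
    rw [e]; exact a.add b
  have := convexHull_min (t := {q ∈ univ | ‖q + v - P (k + 1)‖ + ‖q + v - P (k + 2)‖ ≤ S k})
    (s := range fun j => P j - N j) ?_ (hc.convex_le (S k)) hq
  · exact this.2
  · rintro _ ⟨j, rfl⟩
    exact ⟨trivial, ell k j v (by simpa using hv)⟩

lemma K_conv : Convex ℝ K := (convex_convexHull ℝ _).add (convex_closedBall _ _)

lemma K_cpt : IsCompact K :=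
  ((finite_range _).isCompact_convexHull ℝ).add (isCompact_closedBall _ _)

lemma ballK (j : Fin 6) (v : ℂ) (hv : ‖v‖ ≤ r) : P j - N j + v ∈ K :=
  ⟨_, subset_convexHull ℝ _ ⟨j, rfl⟩, v, by simpa using hv, rfl⟩

lemma K_int : P 0 - N 0 ∈ interior K := by
  rw [mem_interior_iff_mem_nhds]
  filter_upwards [Metric.closedBall_mem_nhds (P 0 - N 0) r0] with z hz
  have := ballK 0 (z - (P 0 - N 0)) (by rwa [Metric.mem_closedBall, dist_eq_norm] at hz)
  rwa [add_sub_cancel] at this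

lemma smooth : SmoothBody K := by
  refine ⟨K_conv, K_cpt, ⟨_, K_int⟩, fun x hx => ?_⟩
  obtain ⟨T, t1, t2⟩ := Pool.Agent.H.MP_fd4af6_gt.supp K K_conv _ K_int x hx
  have T0 : 0 < ‖T‖ := norm_pos_iff.2 fun h => by simp [h] at t2
  obtain ⟨q, hq, v, hv, rfl⟩ := K_cpt.isClosed.frontier_subset hx
  have key : ∀ ν : ℂ, (‖ν‖ = 1 ∧ ∀ z ∈ K, inner ℝ ν (z - (q + v)) ≤ 0) → v = r • ν := by
    rintro ν ⟨n1, n2⟩
    have a := n2 (q + r • ν) ⟨q, hq, r • ν, by simp [n1, abs_of_pos r0], rfl⟩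
    have b : ‖v‖ ≤ r := by simpa using hv
    rw [add_sub_add_left_eq_sub, inner_sub_right, inner_smul_right, real_inner_self_eq_norm_sq,
      n1] at a
    have c : ‖v - r • ν‖ ^ 2 ≤ 0 := by
      rw [norm_sub_sq_real, inner_smul_right, norm_smul, n1, Real.norm_eq_abs, abs_of_pos r0,
        real_inner_comm]
      nlinarith [norm_nonneg v, r0]
    exact sub_eq_zero.1 (norm_eq_zero.1 (pow_eq_zero_iff two_ne_zero |>.1
      (le_antisymm c (by positivity))))
  refine existsUnique_of_exists_of_unique ⟨‖T‖⁻¹ • (-I * T), ?_, fun z hz => ?_⟩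
    fun a b ha hb => ?_
  · simp [T0.ne']
  · rw [real_inner_smul_left]
    apply mul_nonpos_of_nonneg_of_nonpos (by positivity)
    have := t1 z (subset_closure hz)
    rw [Complex.inner]
    simp only [mul_im, mul_re, conj_re, conj_im, neg_re, neg_im, I_re, I_im] at this ⊢
    linarith
  · exact smul_right_injective ℂ r0.ne' ((key a ha).symm.trans (key b hb))

lemma P_fr (j : Fin 6) : P j ∈ frontier K := by
  have m : P j ∈ K := by simpa using ballK j (N j) (hN j).le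
  refine ⟨subset_closure m, fun h => ?_⟩
  have hle : ∀ z ∈ K, (conj (N j) * z).re ≤ (conj (N j) * P j).re := by
    rintro _ ⟨q, hq, v, hv, rfl⟩
    have a : ∀ i, (conj (N j) * (P i - N i)).re ≤ (conj (N j) * (P j - N j)).re := by
      intro i
      have := s3
      fin_cases i <;> fin_cases j <;> simp [P, N] <;> nlinarith
    have b := convexHull_min (t := {q : ℂ | (conj (N j) * q).re ≤ (conj (N j) * (P j - N j)).re})
      (s := range fun j => P j - N j) (by rintro _ ⟨i, rfl⟩; exact a i)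
      (convex_halfSpace_le ⟨fun x y => by rw [mul_add, add_re], fun c x => by
        rw [mul_smul_comm, smul_re]⟩ _) hq
    have c := re_le_norm (conj (N j) * v)
    rw [norm_mul, norm_conj, hN] at c
    have d : ‖v‖ ≤ r := by simpa using hv
    have e : (conj (N j) * N j).re = r ^ 2 := by
      rw [conj_mul', hN]; norm_cast
    simp only [mem_ofPred_eq, mul_sub, sub_re] at b
    simp only [mul_add, add_re]
    nlinarith [r0]
  obtain ⟨ε, e0, hε⟩ := Metric.mem_nhds_iff.1 (mem_interior_iff_mem_nhds.1 h)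
  have := hle _ (hε (a := P j + ε * N j) (by
    rw [Metric.mem_ball, dist_eq_norm, add_sub_cancel_left, norm_mul, hN, norm_real,
      Real.norm_eq_abs, abs_of_pos e0]
    nlinarith [r1]))
  rw [mul_add, add_re, mul_left_comm, re_ofReal_mul, conj_mul', hN] at this
  norm_cast at this
  have := mul_pos e0 (pow_pos r0 2)
  linarith

lemma best (k : Fin 6) (p : ℂ) (hp : p ∈ frontier K) :
    dist p (P (k + 1)) + dist p (P (k + 2)) ≤
      dist (P (k + 3)) (P (k + 1)) + dist (P (k + 3)) (P (k + 2)) := by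
  have d : D (k + 3) (k + 1) + D (k + 3) (k + 2) = S k := by revert k; decide
  have d2 : (D (k + 3) (k + 1) : ℝ) + D (k + 3) (k + 2) = S k := by exact_mod_cast d
  simp only [dist_eq_norm, hD, d2]
  exact K_ell k p (K_cpt.isClosed.frontier_subset hp)

def ix (n : ℕ) : Fin 6 := if n % 2 = 0 then 0 else 3

lemma ix_succ (n : ℕ) : ix (n + 1) = ix n + 3 := by
  unfold ix
  rcases Nat.mod_two_eq_zero_or_one n with h | h <;> simp [h, Nat.add_mod]

theorem result : ¬ ∀ K : Set ℂ, SmoothBody K → ∀ X Y Z : ℕ → ℂ, Run (frontier K) X Y Z →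
    (∃ x, Tendsto X atTop (𝓝 x)) ∧ (∃ y, Tendsto Y atTop (𝓝 y)) ∧ ∃ z, Tendsto Z atTop (𝓝 z) := by
  intro H
  have run : Run (frontier K) (fun n => P (ix n + 2)) (fun n => P (ix n + 1))
      (fun n => P (ix n)) := by
    refine ⟨?_, fun n => ⟨P_fr _, P_fr _, P_fr _, ?_, ?_, ?_⟩⟩
    · rw [affineIndependent_iff_not_collinear_set]
      intro h
      obtain ⟨v, hv⟩ := (collinear_iff_of_mem (p₀ := P (ix 0 + 2)) (by simp)).1 h
      obtain ⟨a, ha⟩ := hv (P (ix 0 + 1)) (by simp)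
      obtain ⟨b, hb⟩ := hv (P (ix 0)) (by simp)
      have a1 := congrArg re ha
      have a2 := congrArg im ha
      have b1 := congrArg re hb
      simp [ix, P] at a1 a2 b1
      rcases a1 with h | h
      · rw [h] at a2; norm_num at a2
      · rw [h] at b1; norm_num at b1
    · intro p hp
      have := best (ix n) p hp
      simp only [per, ix_succ]
      linarith [dist_comm (P (ix n + 1)) p, dist_comm (P (ix n + 1)) (P (ix n + 3))]
    · intro p hp
      have := best (ix n + 1) p hp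
      simp only [per, ix_succ, add_assoc, Fin.reduceAdd] at this ⊢
      linarith [dist_comm (P (ix n + 2)) p, dist_comm (P (ix n + 2)) (P (ix n + 4))]
    · intro p hp
      have := best (ix n + 2) p hp
      simp only [per, ix_succ, add_assoc, Fin.reduceAdd] at this ⊢
      linarith [dist_comm (P (ix n + 3)) p, dist_comm (P (ix n + 3)) (P (ix n + 5))]
  obtain ⟨-, -, z, hz⟩ := H K smooth _ _ _ run
  have a := (hz.comp (tendsto_add_atTop_nat 1)).dist hz
  rw [dist_self] at a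
  obtain ⟨n, hn⟩ := (a.eventually (gt_mem_nhds one_pos)).exists
  have d : ∀ k, D (k + 3) k = 3 := by decide
  simp only [Function.comp, ix_succ, dist_eq_norm, hD, d] at hn
  norm_num at hn

end Pool.Agent.Results.MP_26b77b_gt.Fails
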